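import Pool.Agent.Run7.h900.PileFin
import Pool.Agent.Run7.h900.PileFact

set_option autoImplicit false

/-!
# Elements of free groups in point stabilizers of projective piles

Let `F` be a finitely generated free group, `F^` its profinite completion, `(F^, T)` a projective
pile and `t` a point of `T`. We prove that `F ∩ F^_t` is a free factor of `F`. So if `F^_t` is not all
of `F^`, then each element `g ≠ 1` of `F ∩ F^_t` lies in a non-trivial free factor of `F`.

The condition `|T| > 1` alone does not exclude `F^_t = F^`: the pile which consists of a fixed point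
and of a regular orbit of `F^` is projective. (This degenerate case is the only one in which the
answer to the question is negative.)
-/

namespace Pool.Agent.Results.MP_f46d86_al.StabilizersMeetInFreeFactors

open Pool.Agent.Q24.PF Pool.Agent.Helper122.Cuts Run7.h900.Pile

/-- The homomorphism `ι : F → G` is the profinite completion of `F` (where `G` is profinite): it has
a dense image, and all homomorphisms of `F` to finite groups extend to homomorphisms of `G` with open
kernels. -/
structure IsProfiniteCompletion {F G : Type} [Group F] [Group G] [TopologicalSpace G]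
    (ι : F →* G) : Prop where
  dense : DenseRange ι
  extend : ∀ (Q : Type) [Group Q] [Finite Q] (φ : F →* Q),
    ∃ ψ : G →* Q, (∀ f, ψ (ι f) = φ f) ∧ IsOpen (ψ.ker : Set G)

/-- `H` is a free factor of `F`: `F = H * K` for a subgroup `K`. -/
def IsFreeFactor {F : Type} [Group F] (H : Subgroup F) : Prop :=
  ∃ K : Subgroup F, Function.Bijective (Monoid.Coprod.lift H.subtype K.subtype)

/-- the intersection of a free group with a point stabilizer is a free factor -/
theorem factor (F : Type) [Group F] [IsFreeGroup F] [Group.FG F] (G : Type) [Group G]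
    [TopologicalSpace G] [IsTopologicalGroup G] [CompactSpace G] [T2Space G]
    [TotallyDisconnectedSpace G] (ι : F →* G) (hι : IsProfiniteCompletion ι)
    (T : Type) [TopologicalSpace T] [CompactSpace T] [T2Space T] [TotallyDisconnectedSpace T]
    (𝒢 : Pile G T) (h𝒢 : IsProjective 𝒢) (t : T) : IsFreeFactor ((𝒢.stab t).comap ι) := by
  classical
  let X := IsFreeGroup.Generators F
  let e : F ≃* FreeGroup X := IsFreeGroup.toFreeGroup F
  have hX : Finite X := finite_of_fg (inferInstance : Group.FG F) e
  let j : FreeGroup X →* G := ι.comp e.symm.toMonoidHom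
  have hje : ∀ f, j (e f) = ι f := by
    intro f
    change ι (e.symm (e f)) = ι f
    rw [MulEquiv.symm_apply_apply]
  have hjd : DenseRange j := by
    intro x
    have h1 : Set.range ι ⊆ Set.range j := by
      rintro _ ⟨f, rfl⟩
      exact ⟨e f, hje f⟩
    exact closure_mono h1 (hι.dense x)
  have hj : ∀ (Q : Type) [Group Q] [Finite Q] (φ : FreeGroup X →* Q),
      ∃ ψ : G →* Q, (∀ f, ψ (j f) = φ f) ∧ IsOpen (ψ.ker : Set G) := by
    intro Q _ _ φ
    obtain ⟨ψ, hψ, hψo⟩ := hι.extend Q (φ.comp e.toMonoidHom)
    refine ⟨ψ, fun f => ?_, hψo⟩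
    change ψ (ι (e.symm f)) = φ f
    rw [hψ]
    change φ (e (e.symm f)) = φ f
    rw [MulEquiv.apply_symm_apply]
  have hcl : Cl ((𝒢.stab t).comap j) := by
    apply cl_of_sep
    intro κ _ g hg x hx
    exact exists_ker 𝒢 h𝒢 j hjd hj t g hg x hx
  have hKfg : (⊤ : Subgroup (FreeGroup X)).FG :=
    (Group.fg_iff_subgroup_fg _).1 (Group.fg_of_surjective
      (f := (Subgroup.topEquiv : (⊤ : Subgroup (FreeGroup X)) ≃* FreeGroup X).symm.toMonoidHom)
      (Subgroup.topEquiv : (⊤ : Subgroup (FreeGroup X)) ≃* FreeGroup X).symm.surjective)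
  obtain ⟨-, T', hT'⟩ := hcl.factor ⊤ hKfg
  rw [inf_top_eq] at hT'
  obtain ⟨S, hS⟩ := exists_bas_of_free (K := (𝒢.stab t).comap j) inferInstance
  have h1 := factor_of_bas e hS (hT' S hS)
  have h2 : ((𝒢.stab t).comap j).comap e.toMonoidHom = (𝒢.stab t).comap ι := by
    ext f
    rw [Subgroup.mem_comap, Subgroup.mem_comap, Subgroup.mem_comap]
    change j (e f) ∈ _ ↔ _
    rw [hje]
  rw [h2] at h1
  exact h1

/-- **Point stabilizers of projective piles over the profinite completion of a finitely generated
free group `F` meet `F` in free factors.**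

1. For a projective pile on the profinite completion of `F` and a point `t`, `F ∩ F^_t` is a free
  factor of `F`.
2. If `F^_t ≠ F^`, each `g ≠ 1` in `F ∩ F^_t` lies in a non-trivial free factor of `F`.
3. For each `F` there is a projective pile `(F^, T)` with `|T| > 1` and a point `t` with
  `F^_t = F^`.
4. So with the condition `|T| > 1` only, the statement of the question fails: there are `F`,
  `g ≠ 1`, a projective pile `(F^, T)` with `|T| > 1` and a point `t` with `g ∈ F^_t` such that no
  free factor `A ≠ F` of `F` contains `g`. -/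
theorem result :
    (∀ (F : Type) [Group F] [IsFreeGroup F] [Group.FG F] (G : Type) [Group G]
      [TopologicalSpace G] [IsTopologicalGroup G] [CompactSpace G] [T2Space G]
      [TotallyDisconnectedSpace G] (ι : F →* G), IsProfiniteCompletion ι →
      ∀ (T : Type) [TopologicalSpace T] [CompactSpace T] [T2Space T] [TotallyDisconnectedSpace T]
        (𝒢 : Pile G T), IsProjective 𝒢 → ∀ t : T,
        IsFreeFactor ((𝒢.stab t).comap ι) ∧
        (𝒢.stab t ≠ ⊤ → ∀ g : F, g ≠ 1 → ι g ∈ 𝒢.stab t →
          ∃ A : Subgroup F, IsFreeFactor A ∧ A ≠ ⊥ ∧ A ≠ ⊤ ∧ g ∈ A)) ∧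
    (∀ (F : Type) [Group F] [IsFreeGroup F] [Group.FG F] (G : Type) [Group G]
      [TopologicalSpace G] [IsTopologicalGroup G] [CompactSpace G] [T2Space G]
      [TotallyDisconnectedSpace G] (ι : F →* G), IsProfiniteCompletion ι →
      ∃ (T : Type) (_ : TopologicalSpace T) (_ : CompactSpace T) (_ : T2Space T)
        (_ : TotallyDisconnectedSpace T) (𝒢 : Pile G T) (t : T),
        IsProjective 𝒢 ∧ Nontrivial T ∧ 𝒢.stab t = ⊤) ∧
    (∃ (F : Type) (_ : Group F) (_ : IsFreeGroup F) (_ : Group.FG F) (G : Type) (_ : Group G)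
      (_ : TopologicalSpace G) (_ : IsTopologicalGroup G) (_ : CompactSpace G) (_ : T2Space G)
      (_ : TotallyDisconnectedSpace G) (ι : F →* G) (_ : IsProfiniteCompletion ι)
      (T : Type) (_ : TopologicalSpace T) (_ : CompactSpace T) (_ : T2Space T)
      (_ : TotallyDisconnectedSpace T) (𝒢 : Pile G T) (t : T) (g : F),
      IsProjective 𝒢 ∧ Nontrivial T ∧ g ≠ 1 ∧ ι g ∈ 𝒢.stab t ∧
        ∀ A : Subgroup F, IsFreeFactor A → g ∈ A → A = ⊤) := by
  refine ⟨?_, ?_, ?_⟩
  · intro F _ _ _ G _ _ _ _ _ _ ι hι T _ _ _ _ 𝒢 h𝒢 t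
    have h1 := factor F G ι hι T 𝒢 h𝒢 t
    refine ⟨h1, fun ht g hg hgt => ⟨(𝒢.stab t).comap ι, h1, ?_, ?_, hgt⟩⟩
    · intro h
      have h2 : g ∈ (𝒢.stab t).comap ι := hgt
      rw [h, Subgroup.mem_bot] at h2
      exact hg h2
    · intro h
      apply ht
      rw [eq_top_iff]
      intro x _
      have hSc : IsClosed (𝒢.stab t : Set G) := by
        have hct : Continuous (fun g => 𝒢.act t g) :=
          𝒢.cont.comp (continuous_const.prodMk continuous_id)
        exact isClosed_singleton.preimage hct
      have h2 : Set.range ι ⊆ (𝒢.stab t : Set G) := by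
        rintro _ ⟨f, rfl⟩
        have : f ∈ (𝒢.stab t).comap ι := by
          rw [h]
          exact Subgroup.mem_top f
        exact this
      exact closure_minimal h2 hSc (hι.dense x)
  · intro F _ _ _ G _ _ _ _ _ _ ι hι
    exact ⟨Unit ⊕ G, inferInstance, inferInstance, inferInstance, inferInstance, degPile G,
      Sum.inl (), degPile_projective G, ⟨Sum.inl (), Sum.inr 1, by simp⟩, degPile_stab G⟩
  · obtain ⟨G, i1, i2, i3, i4, i5, i6, ι, h1, h2⟩ := exists_completion (FreeGroup Unit)
    refine ⟨FreeGroup Unit, inferInstance, inferInstance, inferInstance, G, i1, i2, i3, i4, i5, i6,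
      ι, ⟨h1, h2⟩, Unit ⊕ G, inferInstance, inferInstance, inferInstance, inferInstance,
      degPile G, Sum.inl (), FreeGroup.of (), degPile_projective G,
      ⟨Sum.inl (), Sum.inr 1, by simp⟩, FreeGroup.of_ne_one _, ?_, ?_⟩
    · rw [degPile_stab]
      exact Subgroup.mem_top _
    · intro A _ hA
      rw [eq_top_iff, ← FreeGroup.closure_range_of, Subgroup.closure_le]
      rintro _ ⟨u, rfl⟩
      exact hA

end Pool.Agent.Results.MP_f46d86_al.StabilizersMeetInFreeFactors
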